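import Pool.Agent.Helper83.PM.Final

namespace Pool.Agent.Helper83.Shelf.UpperBound277

open Pool.Agent.Helper83.PM Filter

/-- For each fixed `r ≥ 1` and `ε > 0`, for all large `N` every `r`-admissible set `A` at level
`N` has reciprocal sum at most `(r - 1 + ε) log N / log log N`. -/
theorem result (r : ℕ) (hr : 1 ≤ r) (ε : ℝ) (hε : 0 < ε) :
    ∀ᶠ N : ℕ in atTop, ∀ A : Finset ℕ, Admissible r N A →
      ∑ n ∈ A, 1 / (n : ℝ) ≤ ((r : ℝ) - 1 + ε) * (Real.log N / Real.log (Real.log N)) :=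
  upper r hr ε hε

end Pool.Agent.Helper83.Shelf.UpperBound277
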